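import Pool.Agent.Work.MP_46fa68_19.m9_17_8.Chk
import Pool.Agent.Work.MP_46fa68_31.m9_17_8.R
import Pool.Agent.Work.MP_46fa68_31.Cell
import Pool.Agent.Work.MP_46fa68_95.PsdB
import Pool.Agent.Work.MP_46fa68_74.Scale

/-! # MP_46fa68_co, full marked kernel m9_17_8: the gaps -/

set_option autoImplicit false

namespace Pool.JM.MK.m9_17_8

open Finset Pool.EG Pool.JM

theorem sc : ScIneq (16 + 1) (16 + 1 - (7 + 2)) (((8361403916549814348610199311265164 : ℤ) : ℝ) / 2 ^ 112)
    (((2022884197503638124101060929849723 : ℤ) : ℝ) / 2 ^ 112) (((-59986887278372845389742016614903004 : ℤ) : ℝ) / 2 ^ 112)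
    ((((-50911398826189744856714943964849538 : ℤ) : ℝ) + ((118277803153674105810673230531797306 : ℤ) : ℝ)) / 2 ^ 112 - (7 + 2).factorial * (1 / 10 ^ 13))
    ((((-50911398826189744856714943964849538 : ℤ) : ℝ)) / 2 ^ 112 - (7 + 2).factorial * (1 / 10 ^ 13)) := by
  have hc0 : 262143 = RT.cd (range 18) := by
    have h := cd_range 18
    change 262143 = cd (range 18)
    rw [h]
    norm_num
  obtain ⟨al, h1, h2, h3⟩ := RT.cellChk_sound (N := 16 + 1) (M := 18) (m := 7 + 2) (n := 16)
    (K := 28) (R := 18) (S := (2 : ℝ) ^ 112) (cs := cs) (by norm_num) (by norm_num)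
    (by norm_num) (by positivity) hL (by norm_num) (by norm_num) (by norm_num) (by norm_num) hc0
    (by rfl) (by rfl) (by norm_num [Nat.factorial]) (by norm_num [Nat.factorial])
    (fun k hk => hcs k (by omega)) hct hsc hcellC
  exact full_tables (n := 16) (j := 7) (M := 18) (L := 12252240) (W := 35) (R := 18) (N := 176)
    (T := 2 ^ 32) (S := (2 : ℝ) ^ 112) (by norm_num) (by norm_num) hL (by norm_num) (by norm_num)
    (by norm_num) (by positivity) tB tD cs hcs hN hGz hG hsB hsD hr0 (by norm_num) hTB2 hTD hd hE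
    (chP_sound (by positivity) (by norm_num) (hcs 16 (by norm_num)) hpsd) al h1 h2 h3
    (RT.rowChk_sound (N := 16 + 1) (K := 28) (R := 18) (cs := cs 9) (by norm_num) (by norm_num)
      (by positivity) hL (by norm_num) (by norm_num) (by norm_num) (by norm_num) hc0 (by rfl) hsc1
      hrowC)
    (RT.bothChk_sound (N := 16 + 1) (K := 28) (R := 18) (m := 7 + 2) (by norm_num) (by norm_num)
      (by positivity) hL (by norm_num) (by norm_num) (by norm_num) (by norm_num) hc0 (by rfl) hsc
      hbothC)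

theorem gap_1_349o1000_107o125 : Gap 17 8 1 (349 / 1000) (107 / 125) := by
  have h : ExclS (16 + 1) (16 + 1 - (7 + 2)) 1 (349 / 1000) (107 / 125) := by
    refine excl_of_scaled (by norm_num) sc (by norm_num) (by norm_num) ?_ ?_ ?_ ?_ ?_ ?_ ?_ ?_ <;>
      norm_num [Nat.factorial]
  exact h.gap

end Pool.JM.MK.m9_17_8
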